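import Pool.Agent.Helper15.DDesProof

namespace Pool.Agent.Results.MP_a5b9bd_co.RatioLimit

open Filter Topology Pool.Agent.Helper15.DDes

/-- For all `i, j ≥ 2` the ratio `dd({i};n)/dd({j};n)` converges to a positive real number. -/
theorem result (i j : ℕ) (hi : 2 ≤ i) (hj : 2 ≤ j) :
    ∃ L : ℝ, 0 < L ∧ Tendsto (fun n : ℕ => (dd {i} n : ℝ) / (dd {j} n : ℝ)) atTop (𝓝 L) :=
  ratio_limit i j hi hj

end Pool.Agent.Results.MP_a5b9bd_co.RatioLimit
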